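import Mathlib
import Pool.Agent.Helper259.HtDef

set_option autoImplicit false

/-!
# Quasi-projective varieties, regular maps and heights, over the field of algebraic numbers
-/

namespace Pool.Agent.Y724.QDef

open Pool.Agent.Helper259.AbsHt

/-- The `Qbar`-points of projective `n`-space. -/
abbrev PSpace (n : ℕ) : Type := Projectivization Qbar (Fin (n + 1) → Qbar)

/-- Absolute logarithmic Weil height of a point of projective space. -/
noncomputable def ht {n : ℕ} (P : PSpace n) : ℝ := absLogHeight P.rep

/-- Zariski open subsets of projective space: the points at which some form of a given family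
of forms does not vanish. -/
def IsZariskiOpen {n : ℕ} (U : Set (PSpace n)) : Prop :=
  ∃ T : Set (MvPolynomial (Fin (n + 1)) Qbar), (∀ F ∈ T, ∃ e : ℕ, F.IsHomogeneous e) ∧
    U = {P : PSpace n | ∃ F ∈ T, MvPolynomial.eval P.rep F ≠ 0}

/-- Quasi-projective varieties: locally closed subsets of projective space. -/
def IsQuasiProjective {n : ℕ} (X : Set (PSpace n)) : Prop :=
  ∃ U V : Set (PSpace n), IsZariskiOpen U ∧ IsZariskiOpen V ∧ X = U \ V

/-- Regular maps from `X` to projective `m`-space: they are given, in a Zariski neighbourhood of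
every point of `X`, by `m + 1` forms of the same degree without common zero there. -/
def IsRegularMap {n m : ℕ} (X : Set (PSpace n)) (φ : X → PSpace m) : Prop :=
  ∀ x : X, ∃ (U : Set (PSpace n)) (e : ℕ) (Φ : Fin (m + 1) → MvPolynomial (Fin (n + 1)) Qbar),
    IsZariskiOpen U ∧ x.1 ∈ U ∧ (∀ b, (Φ b).IsHomogeneous e) ∧
    ∀ z : X, z.1 ∈ U → ∃ h : (fun b => MvPolynomial.eval z.1.rep (Φ b)) ≠ 0,
      φ z = Projectivization.mk Qbar (fun b => MvPolynomial.eval z.1.rep (Φ b)) h

end Pool.Agent.Y724.QDef
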