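import Mathlib
import Pool.Agent.Helper259.AbsHt

set_option autoImplicit false

/-!
# Points of small height in the fibres of a system of polynomial equations

For a system of polynomial equations and one inequation with parameters `y` and unknowns `x` over
the field of algebraic numbers there is a constant `C` such that, whenever the system has a solution
for the parameter `y`, it has one of height at most `C * (1 + h(y))`. The proof uses the field of
germs of sequences of algebraic numbers of bounded relative height at an ultrafilter, which is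
algebraically closed, and the Nullstellensatz.
-/

namespace Pool.Agent.Y724.Fib

open Pool.Agent.Helper259.AbsHt Pool.Agent.Helper259 Filter

/-- affine height -/
noncomputable def h1 (a : Qbar) : ℝ := absLogHeight ![1, a]

lemma h1_nonneg (a : Qbar) : 0 ≤ h1 a := absLogHeight_nonneg _

lemma h1_le (x : Fin 2 → Qbar) (hx : x 0 ≠ 0) : h1 (x 1 / x 0) = absLogHeight x := by
  rw [h1, ← absLogHeight_smul x (inv_ne_zero hx)]
  congr 1
  funext i
  fin_cases i
  · simp [hx]
  · simp [div_eq_inv_mul]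

lemma h1_inv (a : Qbar) : h1 a⁻¹ = h1 a := by
  by_cases ha : a = 0
  · rw [ha, inv_zero]
  have h := h1_le ![a, 1] ha
  simp only [Matrix.cons_val_one, Matrix.cons_val_zero, one_div] at h
  rw [h, h1]
  apply le_antisymm
  · have := absLogHeight_comp_le ![(1 : Fin 2), 0] ![1, a]
    have e : (![1, a] : Fin 2 → Qbar) ∘ ![(1 : Fin 2), 0] = ![a, 1] := by
      funext i; fin_cases i <;> simp
    rwa [e] at this
  · have := absLogHeight_comp_le ![(1 : Fin 2), 0] ![a, 1]
    have e : (![a, 1] : Fin 2 → Qbar) ∘ ![(1 : Fin 2), 0] = ![1, a] := by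
      funext i; fin_cases i <;> simp
    rwa [e] at this

lemma vec_ne (a : Qbar) : (![1, a] : Fin 2 → Qbar) ≠ 0 := by
  intro h
  have := congrFun h 0
  simp at this

lemma h1_mul (a b : Qbar) : h1 (a * b) ≤ h1 a + h1 b := by
  have h2 := absLogHeight_segre (vec_ne a) (vec_ne b)
  have h3 := absLogHeight_comp_le (![((0 : Fin 2), (0 : Fin 2)), (1, 1)])
    (fun p : Fin 2 × Fin 2 => (![1, a] : Fin 2 → Qbar) p.1 * (![1, b] : Fin 2 → Qbar) p.2)
  rw [h2] at h3
  have e : (fun p : Fin 2 × Fin 2 => (![1, a] : Fin 2 → Qbar) p.1 *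
      (![1, b] : Fin 2 → Qbar) p.2) ∘ (![((0 : Fin 2), (0 : Fin 2)), (1, 1)]) = ![1, a * b] := by
    funext i
    fin_cases i <;> simp
  rwa [e] at h3

lemma h1_add : ∃ C : ℝ, ∀ a b : Qbar, h1 (a + b) ≤ C + (h1 a + h1 b) := by
  classical
  let A : Fin 2 × (Fin 2 × Fin 2) → Qbar := fun p =>
    if p.1 = 0 then (if p.2 = (0, 0) then 1 else 0) else
      (if p.2 = (1, 0) ∨ p.2 = (0, 1) then 1 else 0)
  refine ⟨Real.log (Nat.card (Fin 2 × Fin 2)) + absLogHeight A, fun a b => ?_⟩
  have h2 := absLogHeight_segre (vec_ne a) (vec_ne b)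
  have h3 := absLogHeight_linear A
    (fun p : Fin 2 × Fin 2 => (![1, a] : Fin 2 → Qbar) p.1 * (![1, b] : Fin 2 → Qbar) p.2)
  rw [h2] at h3
  have e : (fun j => ∑ i, A (j, i) * ((![1, a] : Fin 2 → Qbar) i.1 *
      (![1, b] : Fin 2 → Qbar) i.2)) = ![1, a + b] := by
    funext i
    fin_cases i <;> simp [A, Fintype.sum_prod_type, Fin.sum_univ_two, add_comm]
  rwa [e] at h3

lemma h1_neg : ∃ C : ℝ, ∀ a : Qbar, h1 (-a) ≤ C + h1 a := by
  refine ⟨h1 (-1), fun a => ?_⟩
  have := h1_mul (-1) a
  rwa [neg_one_mul] at this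

/-! ### the field of germs of bounded relative height -/

/-- germs of sequences of algebraic numbers -/
abbrev LL : Type := Germ ((hyperfilter ℕ : Ultrafilter ℕ) : Filter ℕ) Qbar

/-- the germ of a sequence -/
noncomputable def germ : (ℕ → Qbar) →+* LL := Germ.coeRingHom _

lemma germ_surj (f : LL) : ∃ g : ℕ → Qbar, germ g = f := by
  induction f using Germ.inductionOn with
  | _ g => exact ⟨g, rfl⟩

lemma germ_eq_zero (g : ℕ → Qbar) : germ g = 0 ↔
    ∀ᶠ n in ((hyperfilter ℕ : Ultrafilter ℕ) : Filter ℕ), g n = 0 := by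
  have : (germ g = 0) ↔ ((g : LL) = ((fun _ => 0 : ℕ → Qbar) : LL)) := Iff.rfl
  rw [this, Germ.coe_eq]
  rfl

lemma germ_ne_zero (g : ℕ → Qbar) : germ g ≠ 0 ↔
    ∀ᶠ n in ((hyperfilter ℕ : Ultrafilter ℕ) : Filter ℕ), g n ≠ 0 := by
  rw [Ne, germ_eq_zero, Ultrafilter.eventually_not]

/-- the germs of sequences whose height is `O(B)` -/
noncomputable def bdd (B : ℕ → ℝ) (hB : ∀ n, 1 ≤ B n) : Subfield LL where
  carrier := {f | ∃ g : ℕ → Qbar, germ g = f ∧ ∃ C : ℝ, ∀ n, h1 (g n) ≤ C * B n}
  mul_mem' := by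
    rintro _ _ ⟨g, rfl, C, hC⟩ ⟨g', rfl, C', hC'⟩
    refine ⟨g * g', map_mul _ _ _, C + C', fun n => ?_⟩
    have := h1_mul (g n) (g' n)
    rw [add_mul]
    exact this.trans (add_le_add (hC n) (hC' n))
  one_mem' := ⟨1, map_one _, h1 1, fun n => by
    simpa using le_mul_of_one_le_right (h1_nonneg 1) (hB n)⟩
  add_mem' := by
    rintro _ _ ⟨g, rfl, C, hC⟩ ⟨g', rfl, C', hC'⟩
    obtain ⟨D, hD⟩ := h1_add
    refine ⟨g + g', map_add _ _ _, |D| + (C + C'), fun n => ?_⟩
    have := hD (g n) (g' n)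
    rw [add_mul, add_mul]
    refine this.trans (add_le_add ?_ (add_le_add (hC n) (hC' n)))
    exact (le_abs_self D).trans (le_mul_of_one_le_right (abs_nonneg D) (hB n))
  zero_mem' := ⟨0, map_zero _, h1 0, fun n => by
    simpa using le_mul_of_one_le_right (h1_nonneg 0) (hB n)⟩
  neg_mem' := by
    rintro _ ⟨g, rfl, C, hC⟩
    obtain ⟨D, hD⟩ := h1_neg
    refine ⟨-g, map_neg _ _, |D| + C, fun n => ?_⟩
    have := hD (g n)
    rw [add_mul]
    refine this.trans (add_le_add ?_ (hC n))
    exact (le_abs_self D).trans (le_mul_of_one_le_right (abs_nonneg D) (hB n))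
  inv_mem' := by
    rintro _ ⟨g, rfl, C, hC⟩
    refine ⟨fun n => (g n)⁻¹, rfl, C, fun n => ?_⟩
    simpa only [h1_inv] using hC n

lemma mem_bdd {B : ℕ → ℝ} {hB : ∀ n, 1 ≤ B n} {g : ℕ → Qbar} {C : ℝ}
    (h : ∀ n, h1 (g n) ≤ C * B n) : germ g ∈ bdd B hB := ⟨g, rfl, C, h⟩

open Polynomial in
theorem bdd_isAlgClosed (B : ℕ → ℝ) (hB : ∀ n, 1 ≤ B n) : IsAlgClosed (bdd B hB) := by
  classical
  refine IsAlgClosed.of_exists_root _ fun p hp hirr => ?_
  set d := p.natDegree with hd
  have hd0 : d ≠ 0 := by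
    intro h0
    have : p = 1 := hp.natDegree_eq_zero.mp h0
    rw [this] at hirr
    exact not_irreducible_one hirr
  choose c hc D hD using fun i => (p.coeff i).2
  let P : ℕ → Qbar[X] := fun n => X ^ d + ∑ i ∈ Finset.range d, C (c i n) * X ^ i
  have hdeglt : ∀ n, (∑ i ∈ Finset.range d, C (c i n) * X ^ i : Qbar[X]).degree < d := by
    intro n
    refine lt_of_le_of_lt (degree_sum_le _ _) ?_
    rw [Finset.sup_lt_iff (by rw [bot_lt_iff_ne_bot]; simp)]
    intro i hi
    refine lt_of_le_of_lt (degree_C_mul_X_pow_le i _) ?_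
    exact_mod_cast Finset.mem_range.mp hi
  have hmonic : ∀ n, (P n).Monic := fun n => monic_X_pow_add (hdeglt n)
  have hdeg : ∀ n, (P n).natDegree = d := by
    intro n
    apply natDegree_eq_of_degree_eq_some
    rw [degree_add_eq_left_of_degree_lt, degree_X_pow]
    rw [degree_X_pow]
    exact hdeglt n
  have hroot : ∀ n, ∃ r, (P n).eval r = 0 := by
    intro n
    obtain ⟨r, hr⟩ := IsAlgClosed.exists_root (P n) (by
      intro h
      have := natDegree_eq_of_degree_eq_some h
      rw [hdeg] at this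
      exact hd0 this)
    exact ⟨r, hr⟩
  choose r hr using hroot
  obtain ⟨C0, hC0⟩ := absLogHeight_root d
  have hbd : ∀ n, h1 (r n) ≤ (|C0| + ((∑ i ∈ Finset.range d, |D i|) + h1 1)) * B n := by
    intro n
    have h2 := hC0 (P n) (r n) (hmonic n).ne_zero (hdeg n).le (hr n)
    have h3 := absLogHeight_le_sum (HtPoly.cv d (P n))
    have h4 : ∑ i : Fin (d + 1), absLogHeight ![1, HtPoly.cv d (P n) i] =
        (∑ i ∈ Finset.range d, h1 (c i n)) + h1 1 := by
      rw [Fin.sum_univ_castSucc, Finset.sum_range]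
      congr 1
      · refine Finset.sum_congr rfl fun i _ => ?_
        have : HtPoly.cv d (P n) i.castSucc = c i n := by
          simp only [HtPoly.cv, P, coeff_add, coeff_X_pow, finsetSum_coeff, coeff_C_mul,
            Fin.val_castSucc]
          rw [if_neg (by omega), zero_add, Finset.sum_eq_single (i : ℕ)]
          · simp
          · intro b _ hb
            rw [if_neg (by omega), mul_zero]
          · intro h
            exact absurd (Finset.mem_range.mpr i.2) h
        rw [this]
        rfl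
      · have : HtPoly.cv d (P n) (Fin.last d) = 1 := by
          have h5 := (hmonic n).coeff_natDegree
          rw [hdeg] at h5
          exact h5
        rw [this]
        rfl
    rw [h4] at h3
    have hBn := hB n
    have h5 : ∑ i ∈ Finset.range d, h1 (c i n) ≤ (∑ i ∈ Finset.range d, |D i|) * B n := by
      rw [Finset.sum_mul]
      refine Finset.sum_le_sum fun i _ => (hD i n).trans ?_
      exact mul_le_mul_of_nonneg_right (le_abs_self _) (by linarith)
    have h6 : C0 ≤ |C0| * B n :=
      (le_abs_self C0).trans (le_mul_of_one_le_right (abs_nonneg C0) hBn)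
    have h7 : h1 1 ≤ h1 1 * B n := le_mul_of_one_le_right (h1_nonneg 1) hBn
    have h8 : h1 (r n) = absLogHeight ![1, r n] := rfl
    rw [add_mul, add_mul, h8]
    linarith
  refine ⟨⟨germ r, mem_bdd hbd⟩, ?_⟩
  apply Subtype.ext
  have e1 : ((p.eval (⟨germ r, mem_bdd hbd⟩ : bdd B hB) : bdd B hB) : LL) =
      germ r ^ d + ∑ i ∈ Finset.range d, germ (c i) * germ r ^ i := by
    conv_lhs => rw [hp.as_sum]
    rw [eval_add, eval_pow, eval_X, eval_finsetSum]
    push_cast
    rw [← hd]
    congr 1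
    refine Finset.sum_congr rfl fun i _ => ?_
    rw [eval_mul, eval_C, eval_pow, eval_X]
    push_cast
    rw [hc i]
  rw [e1]
  have e2 : germ r ^ d + ∑ i ∈ Finset.range d, germ (c i) * germ r ^ i =
      germ (r ^ d + ∑ i ∈ Finset.range d, c i * r ^ i) := by
    simp only [map_add, map_pow, map_sum, map_mul]
  rw [e2]
  have e3 : r ^ d + ∑ i ∈ Finset.range d, c i * r ^ i = 0 := by
    funext n
    have h2 := hr n
    simp only [P, eval_add, eval_pow, eval_X, eval_finsetSum, eval_mul, eval_C] at h2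
    simpa using h2
  rw [e3, map_zero]
  rfl

/-! ### the main theorem -/

open MvPolynomial in
/-- solvable systems have solutions of small height -/
theorem fib {κ ι : Type} [Fintype κ] [Finite ι] (E : Set (MvPolynomial (κ ⊕ ι) Qbar))
    (hE : E.Finite) (q : MvPolynomial (κ ⊕ ι) Qbar) :
    ∃ C : ℝ, ∀ y : κ → Qbar,
      (∃ x : ι → Qbar, (∀ p ∈ E, eval (Sum.elim y x) p = 0) ∧ eval (Sum.elim y x) q ≠ 0) →
      ∃ x : ι → Qbar, (∀ p ∈ E, eval (Sum.elim y x) p = 0) ∧ eval (Sum.elim y x) q ≠ 0 ∧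
        ∀ i, h1 (x i) ≤ C * (1 + ∑ k, h1 (y k)) := by
  classical
  by_contra hcon
  push Not at hcon
  choose y hy hno using fun n : ℕ => hcon (n : ℝ)
  choose x hxE hxq using hy
  set B : ℕ → ℝ := fun n => 1 + ∑ k, h1 (y n k) with hBdef
  have hB : ∀ n, 1 ≤ B n := fun n => by
    have : 0 ≤ ∑ k, h1 (y n k) := Finset.sum_nonneg fun k _ => h1_nonneg _
    simp only [B]
    linarith
  have := bdd_isAlgClosed B hB
  -- constants and parameters
  let cst : Qbar →+* bdd B hB :=
    { toFun := fun c => ⟨germ fun _ => c, mem_bdd (C := h1 c) fun n =>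
        le_mul_of_one_le_right (h1_nonneg c) (hB n)⟩
      map_one' := rfl
      map_mul' := fun _ _ => rfl
      map_zero' := rfl
      map_add' := fun _ _ => rfl }
  let ys : κ → bdd B hB := fun k => ⟨germ fun n => y n k, mem_bdd (C := 1) fun n => by
    rw [one_mul]
    have h2 : h1 (y n k) ≤ ∑ k, h1 (y n k) :=
      Finset.single_le_sum (f := fun k => h1 (y n k)) (fun k _ => h1_nonneg _)
        (Finset.mem_univ k)
    simp only [B]
    linarith⟩
  let θ : MvPolynomial (κ ⊕ ι) Qbar →+* MvPolynomial ι (bdd B hB) :=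
    eval₂Hom (C.comp cst) (Sum.elim (fun k => C (ys k)) X)
  -- evaluation at germs
  have hev : ∀ (z : ι → ℕ → Qbar) (p : MvPolynomial (κ ⊕ ι) Qbar),
      eval₂Hom (bdd B hB).subtype (fun i => germ (z i)) (θ p) =
        germ (fun n => eval (Sum.elim (y n) (fun i => z i n)) p) := by
    intro z p
    have h2 : (eval₂Hom (bdd B hB).subtype (fun i => germ (z i))).comp θ =
        germ.comp (RingHom.pi fun n => eval (Sum.elim (y n) (fun i => z i n))) := by
      apply MvPolynomial.ringHom_ext
      · intro c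
        have a1 : θ (C c) = C (cst c) := eval₂Hom_C _ _ _
        rw [RingHom.comp_apply, a1, eval₂Hom_C, RingHom.comp_apply]
        show germ (fun _ => c) = _
        congr 1
        funext n
        simp
      · rintro (k | i)
        · have a1 : θ (X (Sum.inl k)) = C (ys k) := eval₂Hom_X' _ _ _
          rw [RingHom.comp_apply, a1, eval₂Hom_C, RingHom.comp_apply]
          show germ (fun n => y n k) = _
          congr 1
          funext n
          simp
        · have a1 : θ (X (Sum.inr i)) = X i := eval₂Hom_X' _ _ _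
          rw [RingHom.comp_apply, a1, eval₂Hom_X', RingHom.comp_apply]
          congr 1
          funext n
          simp
    exact congrArg (fun f => f p) h2
  let I : Ideal (MvPolynomial ι (bdd B hB)) := Ideal.span (θ '' E)
  have hqI : θ q ∉ I.radical := by
    rintro ⟨k, hk⟩
    have h2 : ∀ a ∈ I, eval₂Hom (bdd B hB).subtype (fun i => germ fun n => x n i) a = 0 := by
      intro a ha
      have h3 : I ≤ RingHom.ker (eval₂Hom (bdd B hB).subtype
          (fun i => germ fun n => x n i)) := by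
        rw [Ideal.span_le]
        rintro _ ⟨p, hp, rfl⟩
        rw [SetLike.mem_coe, RingHom.mem_ker, hev (fun i n => x n i) p]
        rw [germ_eq_zero]
        exact Eventually.of_forall fun n => hxE n p hp
      exact h3 ha
    have h4 := h2 _ hk
    rw [map_pow, hev (fun i n => x n i) q] at h4
    have h5 := eq_zero_of_pow_eq_zero h4
    have h6 : germ (fun n => eval (Sum.elim (y n) (fun i => x n i)) q) ≠ 0 := by
      rw [germ_ne_zero]
      exact Eventually.of_forall fun n => hxq n
    exact h6 h5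
  rw [← vanishingIdeal_zeroLocus_eq_radical (K := bdd B hB) I, mem_vanishingIdeal_iff] at hqI
  push Not at hqI
  obtain ⟨z, hz, hzq⟩ := hqI
  choose w hw D hD using fun i => (z i).2
  have hzw : ∀ a : MvPolynomial ι (bdd B hB),
      ((aeval z a : bdd B hB) : LL) = eval₂Hom (bdd B hB).subtype (fun i => germ (w i)) a := by
    intro a
    have h2 : ((bdd B hB).subtype : bdd B hB →+* LL).comp
        ((aeval z : MvPolynomial ι (bdd B hB) →ₐ[bdd B hB] bdd B hB) :
          MvPolynomial ι (bdd B hB) →+* bdd B hB) =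
        eval₂Hom (bdd B hB).subtype (fun i => germ (w i)) := by
      apply MvPolynomial.ringHom_ext
      · intro c
        simp
      · intro i
        simp only [RingHom.comp_apply, RingHom.coe_coe, aeval_X, coe_eval₂Hom, eval₂_X]
        exact (hw i).symm
    exact congrArg (fun f => f a) h2
  have e1 : ∀ p ∈ E, ∀ᶠ n in ((hyperfilter ℕ : Ultrafilter ℕ) : Filter ℕ),
      eval (Sum.elim (y n) (fun i => w i n)) p = 0 := by
    intro p hp
    rw [← germ_eq_zero, ← hev w p, ← hzw]
    have h2 := hz (θ p) (Ideal.subset_span ⟨p, hp, rfl⟩)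
    rw [h2]
    rfl
  have e2 : ∀ᶠ n in ((hyperfilter ℕ : Ultrafilter ℕ) : Filter ℕ),
      eval (Sum.elim (y n) (fun i => w i n)) q ≠ 0 := by
    rw [← germ_ne_zero, ← hev w q, ← hzw]
    intro h
    exact hzq (Subtype.ext h)
  have e3 : ∀ᶠ n in ((hyperfilter ℕ : Ultrafilter ℕ) : Filter ℕ), ∀ p ∈ E,
      eval (Sum.elim (y n) (fun i => w i n)) p = 0 := by
    rw [eventually_all_finite hE]
    exact e1
  have e4 : ∀ᶠ n : ℕ in ((hyperfilter ℕ : Ultrafilter ℕ) : Filter ℕ), ∀ i, D i ≤ (n : ℝ) := by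
    rw [eventually_all]
    intro i
    have h2 : ∀ᶠ n : ℕ in atTop, D i ≤ (n : ℝ) :=
      tendsto_natCast_atTop_atTop.eventually_ge_atTop (D i)
    exact Nat.hyperfilter_le_atTop h2
  obtain ⟨n, hn1, hn2, hn3⟩ := (e3.and (e2.and e4)).exists
  obtain ⟨i, hi⟩ := hno n (fun i => w i n) hn1 hn2
  have h2 := hD i n
  have h3 : D i * B n ≤ n * B n := mul_le_mul_of_nonneg_right (hn3 i) (by linarith [hB n])
  exact absurd (h2.trans h3) (not_le.mpr hi)

end Pool.Agent.Y724.Fib
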