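import Mathlib
import Pool.Agent.Helper259.AbsHt
import Pool.Agent.Y724.Fib
import Pool.Agent.Y724.QDef

set_option autoImplicit false

/-!
# Heights on the base and small points in the fibres of a regular map
-/

namespace Pool.Agent.Y724.QMain

open Pool.Agent.Helper259.AbsHt Pool.Agent.Y724.QDef Pool.Agent.Y724.Fib MvPolynomial

/-- the affine height of an entry of a vector -/
noncomputable abbrev h1' {m : ℕ} (y : Fin (m + 1) → Qbar) (k : Fin (m + 1)) : ℝ := h1 (y k)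

lemma eval_smul {n : ℕ} {F : MvPolynomial (Fin (n + 1)) Qbar} {d : ℕ} (hF : F.IsHomogeneous d)
    (c : Qbar) (x : Fin (n + 1) → Qbar) :
    MvPolynomial.eval (c • x) F = c ^ d * MvPolynomial.eval x F := by
  rw [MvPolynomial.eval_eq', MvPolynomial.eval_eq', Finset.mul_sum]
  refine Finset.sum_congr rfl fun s hs => ?_
  have hdeg : ∑ i, s i = d := by
    have h := hF (MvPolynomial.mem_support_iff.mp hs)
    have h2 : Finsupp.degree s = d := by
      rw [← h, Finsupp.degree_eq_weight_one]; rfl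
    rw [← h2, Finsupp.degree_eq_sum]
  simp only [Pi.smul_apply, smul_eq_mul, mul_pow]
  rw [Finset.prod_mul_distrib, Finset.prod_pow_eq_pow_sum, hdeg]
  ring

lemma ht_mk {n : ℕ} (x : Fin (n + 1) → Qbar) (hx : x ≠ 0) :
    ht (Projectivization.mk Qbar x hx : PSpace n) = absLogHeight x := by
  obtain ⟨a, ha⟩ := Projectivization.exists_smul_eq_mk_rep Qbar x hx
  rw [ht, ← ha]
  exact absLogHeight_smul x a.ne_zero

lemma eval_smul_ne {n : ℕ} {F : MvPolynomial (Fin (n + 1)) Qbar} (hF : ∃ e, F.IsHomogeneous e)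
    (c : Qbar) (hc : c ≠ 0) (x : Fin (n + 1) → Qbar) :
    MvPolynomial.eval (c • x) F ≠ 0 ↔ MvPolynomial.eval x F ≠ 0 := by
  obtain ⟨e, he⟩ := hF
  rw [eval_smul he]
  simp [hc]

/-- finitely many polynomials of a family have the same common zeros -/
lemma exists_finite {σ : Type} [Finite σ] (T : Set (MvPolynomial σ Qbar)) :
    ∃ T' : Finset (MvPolynomial σ Qbar), (T' : Set (MvPolynomial σ Qbar)) ⊆ T ∧
      ∀ v : σ → Qbar, (∀ F ∈ T', eval v F = 0) → ∀ F ∈ T, eval v F = 0 := by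
  have h1 : (Ideal.span T).FG := IsNoetherian.noetherian _
  obtain ⟨T', hT', hspan⟩ := (Submodule.fg_span_iff_fg_span_finset_subset T).mp h1
  refine ⟨T', hT', fun v hv F hF => ?_⟩
  have h2 : F ∈ Ideal.span (T' : Set (MvPolynomial σ Qbar)) := by
    have h3 : F ∈ Submodule.span (MvPolynomial σ Qbar) T := Submodule.subset_span hF
    rw [hspan] at h3
    exact h3
  have h3 : Ideal.span (T' : Set (MvPolynomial σ Qbar)) ≤ RingHom.ker (eval v) := by
    rw [Ideal.span_le]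
    intro G hG
    exact hv G hG
  exact h3 h2

/-- two nonzero proportional vectors -/
lemma prop_of_cross {m : ℕ} (a y : Fin (m + 1) → Qbar) (ha : a ≠ 0) (hy : y ≠ 0)
    (h : ∀ b c, a b * y c - a c * y b = 0) :
    Projectivization.mk Qbar a ha = Projectivization.mk Qbar y hy := by
  rw [Projectivization.mk_eq_mk_iff']
  obtain ⟨b, hb⟩ : ∃ b, y b ≠ 0 := by
    by_contra hcon
    push Not at hcon
    exact hy (funext hcon)
  refine ⟨a b / y b, ?_⟩
  funext c
  have := h b c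
  simp only [Pi.smul_apply, smul_eq_mul]
  field_simp
  linear_combination this

variable {n m : ℕ} {X : Set (PSpace n)} {φ : X → PSpace m}

/-- a finite atlas for a regular map on a quasi-projective variety -/
lemma atlas (hX : IsQuasiProjective X) (hφ : IsRegularMap X φ) :
    ∃ (TV : Finset (MvPolynomial (Fin (n + 1)) Qbar)) (s : Finset X)
      (G : X → MvPolynomial (Fin (n + 1)) Qbar) (e : X → ℕ)
      (Φ : X → Fin (m + 1) → MvPolynomial (Fin (n + 1)) Qbar),
      (∀ F ∈ TV, ∃ e : ℕ, F.IsHomogeneous e) ∧ (∀ a, ∃ e : ℕ, (G a).IsHomogeneous e) ∧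
      (∀ a b, (Φ a b).IsHomogeneous (e a)) ∧
      (∀ z : X, ∀ F ∈ TV, eval z.1.rep F = 0) ∧
      (∀ z : X, ∃ a ∈ s, eval z.1.rep (G a) ≠ 0) ∧
      (∀ a, ∀ P : PSpace n, (∀ F ∈ TV, eval P.rep F = 0) → eval P.rep (G a) ≠ 0 →
        ∃ hP : P ∈ X, ∃ h : (fun b => eval P.rep (Φ a b)) ≠ 0,
          φ ⟨P, hP⟩ = Projectivization.mk Qbar (fun b => eval P.rep (Φ a b)) h) := by
  classical
  obtain ⟨U, V, ⟨TU, hTU, rfl⟩, ⟨TV, hTV, rfl⟩, rfl⟩ := hX
  obtain ⟨TV', hTV', hTVeq⟩ := exists_finite TV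
  choose U e Φ hU hxU hΦ hloc using hφ
  choose T hT hUT using hU
  have hex : ∀ x : ↥({P : PSpace n | ∃ F ∈ TU, eval P.rep F ≠ 0} \
      {P : PSpace n | ∃ F ∈ TV, eval P.rep F ≠ 0}),
      ∃ A B : MvPolynomial (Fin (n + 1)) Qbar, A ∈ TU ∧ B ∈ T x ∧ eval x.1.rep A ≠ 0 ∧
        eval x.1.rep B ≠ 0 := by
    intro x
    obtain ⟨A, hA, hA0⟩ := x.2.1
    have h1 := hxU x
    rw [hUT x] at h1
    obtain ⟨B, hB, hB0⟩ := h1
    exact ⟨A, B, hA, hB, hA0, hB0⟩
  choose A B hA hB hA0 hB0 using hex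
  obtain ⟨S, hS, hSeq⟩ := exists_finite (Set.range fun x => A x * B x)
  choose r hr using hS
  refine ⟨TV', S.attach.image (fun F => r F.2), fun x => A x * B x, e, Φ, fun F hF => hTV F (hTV' hF), ?_, hΦ, ?_, ?_, ?_⟩
  · intro a
    obtain ⟨e1, h1⟩ := hTU _ (hA a)
    obtain ⟨e2, h2⟩ := hT a _ (hB a)
    exact ⟨e1 + e2, h1.mul h2⟩
  · intro z F hF
    by_contra h
    exact z.2.2 ⟨F, hTV' hF, h⟩
  · intro z
    by_contra hcon
    push Not at hcon
    have h1 : ∀ F ∈ S, eval z.1.rep F = 0 := by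
      intro F hF
      have h2 := hcon (r hF) (Finset.mem_image.mpr ⟨⟨F, hF⟩, Finset.mem_attach _ _, rfl⟩)
      have h3 : A (r hF) * B (r hF) = F := hr hF
      rw [h3] at h2
      exact h2
    have h2 := hSeq z.1.rep h1 _ ⟨z, rfl⟩
    rw [map_mul] at h2
    exact mul_ne_zero (hA0 z) (hB0 z) h2
  · intro a P hP hG
    rw [map_mul] at hG
    have hPX : P ∈ {P : PSpace n | ∃ F ∈ TU, eval P.rep F ≠ 0} \
        {P : PSpace n | ∃ F ∈ TV, eval P.rep F ≠ 0} := by
      refine ⟨⟨A a, hA a, left_ne_zero_of_mul hG⟩, ?_⟩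
      rintro ⟨F, hF, hF0⟩
      exact hF0 (hTVeq P.rep hP F hF)
    refine ⟨hPX, hloc a ⟨P, hPX⟩ ?_⟩
    rw [hUT a]
    exact ⟨B a, hB a, right_ne_zero_of_mul hG⟩

/-- upper bound for the height of the image -/
theorem upper (hX : IsQuasiProjective X) (hφ : IsRegularMap X φ) :
    ∃ c C : ℝ, 0 < c ∧ ∀ x : X, ht (φ x) ≤ C + c * ht x.1 := by
  classical
  obtain ⟨TV, s, G, e, Φ, hTV, hG, hΦ, hzero, hcov, hloc⟩ := atlas hX hφ
  choose C hC using fun a => absLogHeight_eval (e a) (Φ a) (hΦ a)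
  refine ⟨1 + ∑ a ∈ s, (e a : ℝ), ∑ a ∈ s, |C a|, by positivity, fun x => ?_⟩
  obtain ⟨a, ha, hGa⟩ := hcov x
  obtain ⟨hP, h, hval⟩ := hloc a x.1 (hzero x) hGa
  have h1 : ht (φ x) = absLogHeight (fun b => eval x.1.rep (Φ a b)) := by
    have : φ x = φ ⟨x.1, hP⟩ := rfl
    rw [this, hval, ht_mk]
  rw [h1]
  have h2 := hC a x.1.rep
  have h3 : C a ≤ ∑ a ∈ s, |C a| :=
    (le_abs_self _).trans (Finset.single_le_sum (f := fun a => |C a|)
      (fun _ _ => abs_nonneg _) ha)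
  have h4 : (e a : ℝ) ≤ 1 + ∑ a ∈ s, (e a : ℝ) := by
    have := Finset.single_le_sum (f := fun a => (e a : ℝ)) (fun _ _ => by positivity) ha
    linarith
  have h5 : 0 ≤ ht x.1 := absLogHeight_nonneg _
  have h6 : absLogHeight x.1.rep = ht x.1 := rfl
  rw [h6] at h2
  have h7 := mul_le_mul_of_nonneg_right h4 h5
  linarith

/-- every point of the image is the image of a point of small height -/
theorem lower (hX : IsQuasiProjective X) (hφ : IsRegularMap X φ) :
    ∃ c C : ℝ, 0 < c ∧ ∀ x : X, ∃ x' : X, φ x' = φ x ∧ ht x'.1 ≤ C + c * ht (φ x) := by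
  classical
  obtain ⟨TV, s, G, e, Φ, hTV, hG, hΦ, hzero, hcov, hloc⟩ := atlas hX hφ
  -- the systems
  let E : X → Fin (n + 1) → Set (MvPolynomial (Fin (m + 1) ⊕ Fin (n + 1)) Qbar) := fun a i =>
    ((fun F => rename Sum.inr F) '' (TV : Set (MvPolynomial (Fin (n + 1)) Qbar))) ∪
    ({MvPolynomial.X (Sum.inr i) - 1} ∪
      Set.range (fun p : Fin (m + 1) × Fin (m + 1) => rename Sum.inr (Φ a p.1) *
        MvPolynomial.X (Sum.inl p.2) - rename Sum.inr (Φ a p.2) * MvPolynomial.X (Sum.inl p.1)))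
  have hE : ∀ a i, (E a i).Finite := fun a i =>
    ((Finset.finite_toSet TV).image _).union ((Set.finite_singleton _).union (Set.finite_range _))
  choose C hC using fun a i => fib (E a i) (hE a i) (rename Sum.inr (G a))
  set D : ℝ := ∑ a ∈ s, ∑ i, |C a i| with hD
  have hD0 : 0 ≤ D := Finset.sum_nonneg fun a _ => Finset.sum_nonneg fun i _ => abs_nonneg _
  have evr : ∀ (y : Fin (m + 1) → Qbar) (v : Fin (n + 1) → Qbar)
      (F : MvPolynomial (Fin (n + 1)) Qbar),
      eval (Sum.elim y v) (rename Sum.inr F) = eval v F := by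
    intro y v F
    rw [eval_rename]
    rfl
  refine ⟨(n + 1 : ℝ) * (D * (m + 1)) + 1, (n + 1 : ℝ) * D, by positivity, fun x => ?_⟩
  obtain ⟨a, ha, hGa⟩ := hcov x
  obtain ⟨hP, hval0, hval⟩ := hloc a x.1 (hzero x) hGa
  have hφx : φ x = Projectivization.mk Qbar (fun b => eval x.1.rep (Φ a b)) hval0 := hval
  obtain ⟨b0, hb0⟩ : ∃ b, eval x.1.rep (Φ a b) ≠ 0 := by
    by_contra hcon
    push Not at hcon
    exact hval0 (funext hcon)
  obtain ⟨i, hi⟩ : ∃ i, x.1.rep i ≠ 0 := by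
    by_contra hcon
    push Not at hcon
    exact x.1.rep_nonzero (funext hcon)
  set y : Fin (m + 1) → Qbar := (eval x.1.rep (Φ a b0))⁻¹ • (fun b => eval x.1.rep (Φ a b)) with hy
  have hyb0 : y b0 = 1 := by simp [hy, hb0]
  have hy0 : y ≠ 0 := by
    intro h
    have := congrFun h b0
    rw [hyb0] at this
    simp at this
  have hyht : absLogHeight y = ht (φ x) := by
    rw [hy, absLogHeight_smul _ (inv_ne_zero hb0), hφx, ht_mk]
  have hymk : φ x = Projectivization.mk Qbar y hy0 := by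
    rw [hφx, Projectivization.mk_eq_mk_iff']
    refine ⟨eval x.1.rep (Φ a b0), ?_⟩
    rw [hy, smul_smul, mul_inv_cancel₀ hb0, one_smul]
  set v : Fin (n + 1) → Qbar := (x.1.rep i)⁻¹ • x.1.rep with hv
  have hinv : (x.1.rep i)⁻¹ ≠ 0 := inv_ne_zero hi
  obtain ⟨w, hwE, hwq, hwht⟩ := hC a i y ⟨v, by
    rintro p (⟨F, hF, rfl⟩ | (hp | ⟨⟨b, c⟩, rfl⟩))
    · rw [evr]
      obtain ⟨e1, he1⟩ := hTV F hF
      rw [hv, eval_smul he1, hzero x F hF, mul_zero]
    · rw [Set.mem_singleton_iff] at hp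
      rw [hp]
      simp [hv, hi]
    · simp only [map_sub, map_mul, evr, eval_X, Sum.elim_inl]
      rw [hv, eval_smul (hΦ a b), eval_smul (hΦ a c), hy]
      simp only [Pi.smul_apply, smul_eq_mul]
      ring, by
    rw [evr, hv, eval_smul_ne (hG a) _ hinv]
    exact hGa⟩
  -- the new point
  have hwi : w i = 1 := by
    have h1 := hwE (MvPolynomial.X (Sum.inr i) - 1) (Or.inr (Or.inl rfl))
    simp only [map_sub, eval_X, Sum.elim_inr, map_one] at h1
    exact sub_eq_zero.mp h1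
  have hw0 : w ≠ 0 := by
    intro h
    rw [h] at hwi
    simp at hwi
  set P : PSpace n := Projectivization.mk Qbar w hw0 with hPdef
  obtain ⟨u, hu⟩ := Projectivization.exists_smul_eq_mk_rep Qbar w hw0
  have hu' : P.rep = (u : Qbar) • w := hu.symm
  have hPV : ∀ F ∈ TV, eval P.rep F = 0 := by
    intro F hF
    have h1 := hwE (rename Sum.inr F) (Or.inl ⟨F, hF, rfl⟩)
    rw [evr] at h1
    obtain ⟨e1, he1⟩ := hTV F hF
    rw [hu', eval_smul he1, h1, mul_zero]
  have hPG : eval P.rep (G a) ≠ 0 := by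
    rw [evr] at hwq
    rw [hu', eval_smul_ne (hG a) _ u.ne_zero]
    exact hwq
  obtain ⟨hPX, hne, hvalP⟩ := hloc a P hPV hPG
  refine ⟨⟨P, hPX⟩, ?_, ?_⟩
  · rw [hvalP, hymk]
    apply prop_of_cross
    intro b c
    have h1 := hwE _ (Or.inr (Or.inr ⟨(b, c), rfl⟩))
    simp only [map_sub, map_mul, evr, eval_X, Sum.elim_inl] at h1
    rw [hu', eval_smul (hΦ a b), eval_smul (hΦ a c)]
    linear_combination (u : Qbar) ^ e a * h1
  · have h1 : ht P = absLogHeight w := ht_mk _ _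
    show ht P ≤ _
    rw [h1]
    have h2 := absLogHeight_le_sum w
    have hhx : 0 ≤ ht (φ x) := absLogHeight_nonneg _
    have h3 : ∑ k, h1' y k ≤ (m + 1) * ht (φ x) := by
      have h4 : ∀ k, h1' y k ≤ ht (φ x) := by
        intro k
        rw [← hyht]
        exact aff_le_of_eq_one y b0 hyb0 k
      calc ∑ k, h1' y k ≤ ∑ _k : Fin (m + 1), ht (φ x) := Finset.sum_le_sum fun k _ => h4 k
        _ = (m + 1) * ht (φ x) := by simp
    have h5 : |C a i| ≤ D := by
      refine le_trans ?_ (Finset.single_le_sum (f := fun a => ∑ i, |C a i|)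
        (fun _ _ => Finset.sum_nonneg fun _ _ => abs_nonneg _) ha)
      exact Finset.single_le_sum (f := fun i => |C a i|) (fun _ _ => abs_nonneg _)
        (Finset.mem_univ i)
    have h6 : ∀ j, absLogHeight ![1, w j] ≤ D * (1 + (m + 1) * ht (φ x)) := by
      intro j
      refine (hwht j).trans ?_
      have h7 : 0 ≤ 1 + ∑ k, h1' y k := by
        have : 0 ≤ ∑ k, h1' y k := Finset.sum_nonneg fun k _ => absLogHeight_nonneg _
        linarith
      calc C a i * (1 + ∑ k, h1' y k) ≤ D * (1 + ∑ k, h1' y k) :=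
            mul_le_mul_of_nonneg_right ((le_abs_self _).trans h5) h7
        _ ≤ D * (1 + (m + 1) * ht (φ x)) := mul_le_mul_of_nonneg_left (by linarith) hD0
    have h8 : ∑ j, absLogHeight ![1, w j] ≤ (n + 1) * (D * (1 + (m + 1) * ht (φ x))) := by
      calc ∑ j, absLogHeight ![1, w j] ≤ ∑ _j : Fin (n + 1), D * (1 + (m + 1) * ht (φ x)) :=
            Finset.sum_le_sum fun j _ => h6 j
        _ = _ := by simp
    refine (h2.trans h8).trans ?_
    nlinarith

end Pool.Agent.Y724.QMain
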